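import Pool.Agent.H39.HW.SStm

/-!
# Project HW, scheme side, parts CLA and CLB: rows above a middle block
-/

set_option autoImplicit false
open Classical Finset

namespace Pool.Agent.H44.HW

open Pool.Agent.H39.HW Pool.Agent.H39.HW.Sc

/-- basic numbers -/
theorem nums (x : Prm) (hx : Par x) :
    0 < x.η ∧ x.η ≤ 1 / 10 ^ 5 ∧ 0 < x.c ∧ x.c ≤ 1 / 2 ∧ 0 < x.θ ∧ x.θ ≤ x.η ∧ 0 < x.μ ∧ x.μ ≤ x.η ∧
    0 ≤ (x.v : ℝ) / x.D - x.μ ∧ (x.v : ℝ) / x.D - x.μ ≤ (1 + x.η) * x.θ * x.μ ∧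
    (1 : ℝ) ≤ (x.K : ℝ) - x.g ∧ ((x.K : ℝ) - x.g) * x.μ ≤ x.η := by
  have h0 := hx.n0
  have h1 := hx.n1
  have h2 := hx.e1
  have h3 := hx.c1
  have h4 := hx.c2
  have h5 := hx.e0
  have hs := abs_le.mp hx.s2
  have hθ := hx.t0
  have hμ := hx.m0
  have hθη := hx.th
  have hη5 : x.η ≤ 1 / 10 ^ 5 := by linarith
  have hθμ : 0 < x.θ * x.μ := mul_pos hθ hμ
  have hηθμ : x.η * x.θ * x.μ ≤ x.θ * x.μ := by
    have : x.η * (x.θ * x.μ) ≤ 1 * (x.θ * x.μ) :=
      mul_le_mul_of_nonneg_right (by linarith) hθμ.le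
    linarith [mul_assoc x.η x.θ x.μ]
  have hv0 : 0 ≤ (x.v : ℝ) / x.D - x.μ := by linarith [hs.1]
  have hv1 : (x.v : ℝ) / x.D - x.μ ≤ (1 + x.η) * x.θ * x.μ := by linarith [hs.2]
  have hKg : (1 : ℝ) ≤ (x.K : ℝ) - x.g := by
    have hW := hx.W1
    have hg := hx.g1
    have : x.g + 1 ≤ x.K := by omega
    have h : ((x.g + 1 : ℕ) : ℝ) ≤ x.K := by exact_mod_cast this
    push_cast at h
    linarith
  have hj2 := (abs_le.mp hx.j2).2
  have hKgμ : ((x.K : ℝ) - x.g) * x.μ ≤ x.η := by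
    have h6 : ((x.K : ℝ) - x.g) * x.μ ≤ ((x.K : ℝ) - x.g) * ((x.v : ℝ) / x.D) :=
      mul_le_mul_of_nonneg_left (by linarith) (by linarith)
    have h7 : 3 / 5 * x.c * x.θ + x.η * x.θ ≤ x.θ := by
      have : (3 / 5 * x.c + x.η) * x.θ ≤ 1 * x.θ :=
        mul_le_mul_of_nonneg_right (by linarith) hθ.le
      linarith
    linarith
  refine ⟨h0, hη5, by linarith, by linarith, hθ, hθη, hμ, ?_, hv0, hv1, hKg, hKgμ⟩
  have : 1 * x.μ ≤ ((x.K : ℝ) - x.g) * x.μ := mul_le_mul_of_nonneg_right hKg hμ.le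
  linarith

/-- `gA` for rows above the block -/
theorem gA_above (x : Prm) (l : ℝ) (a β : ℕ) (hβ : β ∈ x.mid) (ha : β < a) :
    x.gA l a β = if a ≤ β + x.K then (if x.b1 ≤ a + x.K then l else 1 / 2)
      else if x.b1 ≤ a + x.K then (if β + 2 * x.K < x.b1 then 1 / 2 - x.c / 10 else 3 / 5)
      else 1 / 2 := by
  have h := Finset.mem_Ico.mp hβ
  unfold Prm.gA
  rw [if_neg (by omega : ¬ β < x.b0), if_neg (by omega : ¬ x.b1 ≤ β)]
  have hadj : x.adj a β ↔ a ≤ β + x.K := by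
    unfold Prm.adj
    constructor
    · exact fun h => h.2
    · exact fun h => ⟨by omega, h⟩
  have hiff : (x.b1 ≤ a + x.K ↔ β < a) ↔ x.b1 ≤ a + x.K := by
    constructor
    · exact fun h => h.mpr ha
    · exact fun h => ⟨fun _ => ha, fun _ => h⟩
  by_cases h1 : a ≤ β + x.K
  · rw [if_pos (hadj.mpr h1), if_pos h1]
    by_cases h2 : x.b1 ≤ a + x.K
    · rw [if_pos (hiff.mpr h2), if_pos h2]
    · rw [if_neg (fun h => h2 (hiff.mp h)), if_neg h2]
  · rw [if_neg (fun h => h1 (hadj.mp h)), if_neg h1]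
    by_cases h2 : x.b1 ≤ a + x.K
    · rw [if_pos h2, if_pos h2]
    · rw [if_neg h2, if_neg h2, if_neg (by omega : ¬ a < x.b0 + x.K)]

theorem split_bound (hC : S_CLD) (hA : S_AVA) (hB : S_BLK) (x : Prm) (hx : Par x) (β : ℕ)
    (hβ : β ∈ x.mid) (f : ℕ → ℝ) (q1 q2 Q : ℝ) (hq1 : 0 ≤ q1) (hq2 : 0 ≤ q2) (hQ : 0 ≤ Q)
    (h1 : ∀ a ∈ x.R, β + x.K < a → a + x.K < x.b1 → f a ≤ q1)
    (h2 : ∀ a ∈ x.R, β + x.K < a → x.b1 ≤ a + x.K → f a ≤ q2)
    (h3 : ∀ a ∈ x.R, β + x.g + 1 ≤ a → a ≤ β + x.K →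
      f a * (((x.K : ℝ) - x.g) * (x.v / x.D)) ≤ Q * x.θ) :
    ∑ a ∈ x.R.filter (fun a => β < a ∧ β ∈ x.cls a), f a * x.dem a β ≤
      ((q1 * (((x.b1 - x.K - (β + x.K + 1) : ℕ) : ℝ) * x.μ) +
        q2 * (((x.b1 + x.J - max (β + x.K + 1) (x.b1 - x.K) : ℕ) : ℝ) * x.μ)) * (1 + x.η) + Q)
        * x.θ := by
  obtain ⟨hη, hη5, hc0, hc1, hθ, hθη, hμ, hμη, hv0, hv1, hKg, hKgμ⟩ := nums x hx
  have hβ' := Finset.mem_Ico.mp hβ
  obtain ⟨-, -, -, -, -, hln, -⟩ := hB x hx
  have hln := hln β hβ'.1 hβ'.2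
  have hβB : β < x.B := by
    have : x.b1 ≤ x.B := by unfold Prm.b1 Prm.B; omega
    omega
  have hvD : 0 ≤ (x.v : ℝ) / x.D := by linarith
  set S := x.R.filter (fun a => β < a ∧ β ∈ x.cls a) with hS
  set dv := (x.v : ℝ) / x.D - x.μ with hdv
  have hmem : ∀ a ∈ S, a ∈ x.R ∧ β < a ∧ β ∈ x.cls a := by
    intro a ha
    rw [hS, Finset.mem_filter] at ha
    exact ⟨ha.1, ha.2.1, ha.2.2⟩
  have hR : ∀ a ∈ x.R, a + 1 ≤ x.b1 + x.J := by
    intro a ha
    have := (Finset.mem_Icc.mp ha).2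
    have hJ := hx.J1
    omega
  -- not adjacent
  have hna : ∀ a ∈ S, ¬ a ≤ β + x.K → x.dem a β = dv := by
    intro a ha hna
    obtain ⟨haR, hβa, hcls⟩ := hmem a ha
    rw [(hC x hx a haR).2.2.2.1 β hcls (fun h => hna h.2), hln]
  have had : ∀ a ∈ S, a ≤ β + x.K → x.dem a β = (x.v : ℝ) / x.D ∧ β + x.g + 1 ≤ a := by
    intro a ha hna
    obtain ⟨haR, hβa, hcls⟩ := hmem a ha
    rw [(hC x hx a haR).2.2.1 β hcls ⟨by omega, hna⟩, hln]
    refine ⟨rfl, ?_⟩
    have hav := (((hC x hx a haR).1 β).mp hcls).2.1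
    exact (hA x hx a haR β hβB).2.2.1 hβa.le hav
  have e1 : ∑ a ∈ S, f a * x.dem a β =
      ∑ a ∈ S.filter (fun a => a ≤ β + x.K), f a * x.dem a β +
      (∑ a ∈ (S.filter (fun a => ¬ a ≤ β + x.K)).filter (fun a => x.b1 ≤ a + x.K),
          f a * x.dem a β +
        ∑ a ∈ (S.filter (fun a => ¬ a ≤ β + x.K)).filter (fun a => ¬ x.b1 ≤ a + x.K),
          f a * x.dem a β) := by
    rw [Finset.sum_filter_add_sum_filter_not, Finset.sum_filter_add_sum_filter_not]
  -- the adjacent rows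
  have b1 : ∑ a ∈ S.filter (fun a => a ≤ β + x.K), f a * x.dem a β ≤ Q * x.θ := by
    have hc : ((S.filter (fun a => a ≤ β + x.K)).card : ℝ) ≤ (x.K : ℝ) - x.g := by
      have hsub : S.filter (fun a => a ≤ β + x.K) ⊆ Finset.Ico (β + x.g + 1) (β + x.K + 1) := by
        intro a ha
        rw [Finset.mem_filter] at ha
        rw [Finset.mem_Ico]
        have := (had a ha.1 ha.2).2
        omega
      have h := Finset.card_le_card hsub
      rw [Nat.card_Ico] at h
      have hg := hx.g1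
      have h' : ((S.filter (fun a => a ≤ β + x.K)).card) + x.g ≤ x.K := by omega
      have h'' : (((S.filter (fun a => a ≤ β + x.K)).card + x.g : ℕ) : ℝ) ≤ x.K := by
        exact_mod_cast h'
      push_cast at h''
      linarith
    have hpos : 0 < (x.K : ℝ) - x.g := by linarith
    have hterm : ∀ a ∈ S.filter (fun a => a ≤ β + x.K), f a * x.dem a β ≤
        Q * x.θ / ((x.K : ℝ) - x.g) := by
      intro a ha
      rw [Finset.mem_filter] at ha
      obtain ⟨hd, hg⟩ := had a ha.1 ha.2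
      rw [hd, le_div_iff₀ hpos]
      have := h3 a (hmem a ha.1).1 hg ha.2
      calc f a * (x.v / x.D) * ((x.K : ℝ) - x.g) = f a * (((x.K : ℝ) - x.g) * (x.v / x.D)) := by
            ring
        _ ≤ _ := this
    refine (Finset.sum_le_card_nsmul _ _ _ hterm).trans ?_
    rw [nsmul_eq_mul]
    have hQ0 : 0 ≤ Q * x.θ / ((x.K : ℝ) - x.g) := by positivity
    calc ((S.filter (fun a => a ≤ β + x.K)).card : ℝ) * (Q * x.θ / ((x.K : ℝ) - x.g)) ≤
          ((x.K : ℝ) - x.g) * (Q * x.θ / ((x.K : ℝ) - x.g)) :=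
            mul_le_mul_of_nonneg_right hc hQ0
      _ = Q * x.θ := by field_simp
  -- the other rows
  have hbd : ∀ (T : Finset ℕ) (q : ℝ) (n : ℕ), 0 ≤ q → (∀ a ∈ T, f a ≤ q ∧ x.dem a β = dv) →
      T.card ≤ n → ∑ a ∈ T, f a * x.dem a β ≤ (q * ((n : ℝ) * x.μ)) * (1 + x.η) * x.θ := by
    intro T q n hq hT hn
    have hterm : ∀ a ∈ T, f a * x.dem a β ≤ q * dv := by
      intro a ha
      rw [(hT a ha).2]
      exact mul_le_mul_of_nonneg_right (hT a ha).1 hv0
    refine (Finset.sum_le_card_nsmul _ _ _ hterm).trans ?_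
    rw [nsmul_eq_mul]
    have hn' : (T.card : ℝ) ≤ n := by exact_mod_cast hn
    calc (T.card : ℝ) * (q * dv) ≤ n * (q * dv) :=
          mul_le_mul_of_nonneg_right hn' (mul_nonneg hq hv0)
      _ ≤ n * (q * ((1 + x.η) * x.θ * x.μ)) :=
          mul_le_mul_of_nonneg_left (mul_le_mul_of_nonneg_left hv1 hq) (Nat.cast_nonneg _)
      _ = _ := by ring
  have b2 : ∑ a ∈ (S.filter (fun a => ¬ a ≤ β + x.K)).filter (fun a => x.b1 ≤ a + x.K),
      f a * x.dem a β ≤ (q2 * (((x.b1 + x.J - max (β + x.K + 1) (x.b1 - x.K) : ℕ) : ℝ) * x.μ)) *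
        (1 + x.η) * x.θ := by
    apply hbd _ _ _ hq2
    · intro a ha
      rw [Finset.mem_filter, Finset.mem_filter] at ha
      exact ⟨h2 a (hmem a ha.1.1).1 (by omega) ha.2, hna a ha.1.1 ha.1.2⟩
    · rw [← Nat.card_Ico]
      apply Finset.card_le_card
      intro a ha
      rw [Finset.mem_filter, Finset.mem_filter] at ha
      rw [Finset.mem_Ico]
      have := hR a (hmem a ha.1.1).1
      omega
  have b3 : ∑ a ∈ (S.filter (fun a => ¬ a ≤ β + x.K)).filter (fun a => ¬ x.b1 ≤ a + x.K),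
      f a * x.dem a β ≤ (q1 * (((x.b1 - x.K - (β + x.K + 1) : ℕ) : ℝ) * x.μ)) *
        (1 + x.η) * x.θ := by
    apply hbd _ _ _ hq1
    · intro a ha
      rw [Finset.mem_filter, Finset.mem_filter] at ha
      exact ⟨h1 a (hmem a ha.1.1).1 (by omega) (by omega), hna a ha.1.1 ha.1.2⟩
    · rw [← Nat.card_Ico]
      apply Finset.card_le_card
      intro a ha
      rw [Finset.mem_filter, Finset.mem_filter] at ha
      rw [Finset.mem_Ico]
      omega
  rw [e1]
  calc _ ≤ Q * x.θ + ((q2 * (((x.b1 + x.J - max (β + x.K + 1) (x.b1 - x.K) : ℕ) : ℝ) * x.μ)) *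
        (1 + x.η) * x.θ + (q1 * (((x.b1 - x.K - (β + x.K + 1) : ℕ) : ℝ) * x.μ)) *
        (1 + x.η) * x.θ) := add_le_add b1 (add_le_add b2 b3)
    _ = _ := by ring

/-- further numbers -/
theorem nums2 (x : Prm) (hx : Par x) (β : ℕ) (hβ : β ∈ x.mid) :
    x.c - x.η ≤ x.K * x.μ ∧ x.K * x.μ ≤ x.c + x.η ∧ 0 ≤ x.J * x.μ ∧ x.J * x.μ ≤ x.η ∧
    x.c - 2 * x.η ≤ x.g * x.μ ∧ 0 ≤ ((x.b1 : ℝ) - β) * x.μ ∧ ((x.b1 : ℝ) - β) * x.μ ≤ 1 + x.η ∧
    1 / 2 * (((x.K : ℝ) - x.g) * (x.v / x.D)) ≤ (3 / 10 * x.c + x.η) * x.θ ∧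
    x.c ^ 2 ≤ x.c / 2 ∧ 0 ≤ x.c ^ 2 := by
  obtain ⟨hη, hη5, hc0, hc1, hθ, hθη, hμ, hμη, hv0, hv1, hKg, hKgμ⟩ := nums x hx
  have hk := abs_le.mp hx.k1
  have hm := abs_le.mp hx.m1
  have hj := abs_le.mp hx.j2
  have hβ' := Finset.mem_Ico.mp hβ
  have hb : x.b1 ≤ β + x.M := by
    have h1 := hβ'.1
    unfold Prm.b0 at h1
    unfold Prm.b1
    omega
  have hb' : (x.b1 : ℝ) ≤ β + x.M := by exact_mod_cast hb
  have hb2 : (β : ℝ) ≤ x.b1 := by exact_mod_cast hβ'.2.le
  refine ⟨by linarith [hk.1], by linarith [hk.2], by positivity, hx.j1, ?_, ?_, ?_, ?_, ?_, ?_⟩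
  · have : ((x.K : ℝ) - x.g) * x.μ = x.K * x.μ - x.g * x.μ := by ring
    linarith [hk.1]
  · exact mul_nonneg (by linarith) hμ.le
  · have h1 : ((x.b1 : ℝ) - β) * x.μ ≤ x.M * x.μ := mul_le_mul_of_nonneg_right (by linarith) hμ.le
    linarith [hm.2]
  · have h1 : 0 ≤ x.η * x.θ := by positivity
    linarith [hj.2]
  · nlinarith
  · positivity

theorem n2_bound (x : Prm) (hx : Par x) (β : ℕ) (hβ : β ∈ x.mid) (h : x.b1 ≤ β + 2 * x.K) :
    ((x.b1 + x.J - max (β + x.K + 1) (x.b1 - x.K) : ℕ) : ℝ) * x.μ ≤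
      max (((x.b1 : ℝ) - β) * x.μ - x.c) 0 + 2 * x.η := by
  obtain ⟨hη, hη5, hc0, hc1, hθ, hθη, hμ, hμη, hv0, hv1, hKg, hKgμ⟩ := nums x hx
  obtain ⟨hK1, hK2, hJ0, hJ1, hg, hz0, hz1, hX, hcc, hcc0⟩ := nums2 x hx β hβ
  have hmax : max (β + x.K + 1) (x.b1 - x.K) = β + x.K + 1 := max_eq_left (by omega)
  rw [hmax]
  by_cases hc : β + x.K + 1 ≤ x.b1 + x.J
  · have h1 : ((x.b1 + x.J - (β + x.K + 1) : ℕ) : ℝ) ≤ (x.b1 : ℝ) + x.J - β - x.K := by
      rw [Nat.cast_sub hc]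
      push_cast
      linarith
    have h2 : ((x.b1 + x.J - (β + x.K + 1) : ℕ) : ℝ) * x.μ ≤ ((x.b1 : ℝ) + x.J - β - x.K) * x.μ :=
      mul_le_mul_of_nonneg_right h1 hμ.le
    have h3 : ((x.b1 : ℝ) + x.J - β - x.K) * x.μ =
        ((x.b1 : ℝ) - β) * x.μ + x.J * x.μ - x.K * x.μ := by ring
    have h4 := le_max_left (((x.b1 : ℝ) - β) * x.μ - x.c) 0
    linarith
  · have h1 : x.b1 + x.J - (β + x.K + 1) = 0 := by omega
    rw [h1, Nat.cast_zero, zero_mul]
    have h4 := le_max_right (((x.b1 : ℝ) - β) * x.μ - x.c) 0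
    linarith

theorem t_CLB (hL : S_LM1) (hC : S_CLD) (hA : S_AVA) (hB : S_BLK) : S_CLB := by
  intro x hx β hβ
  obtain ⟨hη, hη5, hc0, hc1, hθ, hθη, hμ, hμη, hv0, hv1, hKg, hKgμ⟩ := nums x hx
  obtain ⟨hK1, hK2, hJ0, hJ1, hg, hz0, hz1, hX, hcc, hcc0⟩ := nums2 x hx β hβ
  have hβ' := Finset.mem_Ico.mp hβ
  set z := ((x.b1 : ℝ) - β) * x.μ with hz
  have hW := hx.W1
  have hgK : x.g + 1 ≤ x.K := by have := hx.g1; omega
  have hfr : ∀ a, x.fr false a β = 1 - x.gA (x.lam a) a β := fun a => by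
    unfold Prm.fr; simp
  have hR : ∀ a ∈ x.R, a + 1 ≤ x.b1 + x.J := by
    intro a ha
    have := (Finset.mem_Icc.mp ha).2
    have hJ := hx.J1
    omega
  by_cases hA1 : β + 2 * x.K < x.b1
  · rw [if_pos hA1]
    refine (split_bound hC hA hB x hx β hβ (fun a => x.fr false a β) (1 / 2) (1 / 2 + x.c / 10)
      (3 / 10 * x.c + x.η) (by norm_num) (by linarith) (by linarith) ?_ ?_ ?_).trans ?_
    · intro a ha h1 h2
      rw [hfr, gA_above x _ a β hβ (by omega), if_neg (by omega), if_neg (by omega)]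
      norm_num
    · intro a ha h1 h2
      rw [hfr, gA_above x _ a β hβ (by omega), if_neg (by omega), if_pos (by omega), if_pos hA1]
      linarith
    · intro a ha h1 h2
      rw [hfr, gA_above x _ a β hβ (by omega), if_pos h2, if_neg (by omega)]
      linarith
    · apply mul_le_mul_of_nonneg_right _ hθ.le
      have h1 : ((x.b1 - x.K - (β + x.K + 1) : ℕ) : ℝ) * x.μ ≤ z - 2 * (x.K * x.μ) := by
        have h2 : ((x.b1 - x.K - (β + x.K + 1) : ℕ) : ℝ) ≤ (x.b1 : ℝ) - β - 2 * x.K := by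
          have h3 : x.b1 - x.K - (β + x.K + 1) + (β + 2 * x.K) ≤ x.b1 := by omega
          have h4 : ((x.b1 - x.K - (β + x.K + 1) + (β + 2 * x.K) : ℕ) : ℝ) ≤ x.b1 := by
            exact_mod_cast h3
          push_cast at h4
          linarith
        calc _ ≤ ((x.b1 : ℝ) - β - 2 * x.K) * x.μ := mul_le_mul_of_nonneg_right h2 hμ.le
          _ = _ := by rw [hz]; ring
      have h2 : ((x.b1 + x.J - max (β + x.K + 1) (x.b1 - x.K) : ℕ) : ℝ) * x.μ =
          x.K * x.μ + x.J * x.μ := by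
        have h3 : x.b1 + x.J - max (β + x.K + 1) (x.b1 - x.K) = x.K + x.J := by
          rw [max_eq_right (by omega)]
          omega
        rw [h3]; push_cast; ring
      rw [h2]
      set A1 := ((x.b1 - x.K - (β + x.K + 1) : ℕ) : ℝ) * x.μ with hA1'
      have hA10 : 0 ≤ A1 := by positivity
      have h4 : x.c / 10 * (x.K * x.μ + x.J * x.μ) ≤ x.c / 10 * (x.c + 2 * x.η) :=
        mul_le_mul_of_nonneg_left (by linarith) (by linarith)
      have h5 : x.c * x.η ≤ x.η := by nlinarith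
      have hY : 1 / 2 * A1 + (1 / 2 + x.c / 10) * (x.K * x.μ + x.J * x.μ) ≤
          (z - x.c) / 2 + x.c ^ 2 / 10 + 2 * x.η := by
        have h6 : (1 / 2 + x.c / 10) * (x.K * x.μ + x.J * x.μ) =
            1 / 2 * (x.K * x.μ + x.J * x.μ) + x.c / 10 * (x.K * x.μ + x.J * x.μ) := by ring
        have h7 : x.c / 10 * (x.c + 2 * x.η) = x.c ^ 2 / 10 + x.c * x.η / 5 := by ring
        rw [h6]
        linarith
      set Y := 1 / 2 * A1 + (1 / 2 + x.c / 10) * (x.K * x.μ + x.J * x.μ) with hYd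
      have hY2 : Y ≤ 2 := by linarith
      have hY3 : Y * (1 + x.η) ≤ Y + 2 * x.η := by nlinarith
      unfold G1f
      linarith
  · rw [if_neg hA1]
    by_cases hB1 : β + x.g + 2 ≤ x.b1 + x.J
    · rw [if_pos hB1]
      have hzl : x.c - 3 * x.η ≤ z := by
        have h1 : ((β + x.g + 2 : ℕ) : ℝ) ≤ ((x.b1 + x.J : ℕ) : ℝ) := by exact_mod_cast hB1
        push_cast at h1
        have h2 : ((x.g : ℝ) - x.J) * x.μ ≤ ((x.b1 : ℝ) - β) * x.μ :=
          mul_le_mul_of_nonneg_right (by linarith) hμ.le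
        have h3 : ((x.g : ℝ) - x.J) * x.μ = x.g * x.μ - x.J * x.μ := by ring
        linarith
      refine (split_bound hC hA hB x hx β hβ (fun a => x.fr false a β) 0 (2 / 5)
        (x.c / 2 + x.c ^ 2 / 5 - 2 / 5 * (2 * x.c - z) + 60 * x.η) le_rfl (by norm_num)
        (by linarith) ?_ ?_ ?_).trans ?_
      · intro a ha h1 h2
        omega
      · intro a ha h1 h2
        rw [hfr, gA_above x _ a β hβ (by omega), if_neg (by omega), if_pos (by omega), if_neg hA1]
        norm_num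
      · intro a ha h1 h2
        by_cases hrr : x.b1 ≤ a + x.K
        · rw [hfr, gA_above x _ a β hβ (by omega), if_pos h2, if_pos hrr]
          refine ((hL x hx a ha).2.2.1 hrr).1.trans (mul_le_mul_of_nonneg_right ?_ hθ.le)
          have h3 : ((β + x.g + 1 : ℕ) : ℝ) ≤ (a : ℝ) := by exact_mod_cast h1
          push_cast at h3
          have h4 : ((x.g : ℝ) + x.K - ((x.b1 : ℝ) - β)) * x.μ ≤ ((a : ℝ) + x.K - x.b1) * x.μ :=
            mul_le_mul_of_nonneg_right (by linarith) hμ.le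
          have h5 : ((x.g : ℝ) + x.K - ((x.b1 : ℝ) - β)) * x.μ = x.g * x.μ + x.K * x.μ - z := by
            rw [hz]; ring
          linarith
        · rw [hfr, gA_above x _ a β hβ (by omega), if_pos h2, if_neg hrr]
          have h3 : ((β + x.g + 1 + x.K : ℕ) : ℝ) ≤ ((x.b1 : ℕ) : ℝ) := by
            have : β + x.g + 1 + x.K ≤ x.b1 := by omega
            exact_mod_cast this
          push_cast at h3
          have h4 : ((x.g : ℝ) + x.K) * x.μ ≤ ((x.b1 : ℝ) - β) * x.μ :=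
            mul_le_mul_of_nonneg_right (by linarith) hμ.le
          have h5 : ((x.g : ℝ) + x.K) * x.μ = x.g * x.μ + x.K * x.μ := by ring
          have h6 : (3 / 10 * x.c + x.η) * x.θ ≤
              (x.c / 2 + x.c ^ 2 / 5 - 2 / 5 * (2 * x.c - z) + 60 * x.η) * x.θ :=
            mul_le_mul_of_nonneg_right (by linarith) hθ.le
          linarith
      · apply mul_le_mul_of_nonneg_right _ hθ.le
        have hn := n2_bound x hx β hβ (by omega)
        rw [← hz] at hn
        set A2 := ((x.b1 + x.J - max (β + x.K + 1) (x.b1 - x.K) : ℕ) : ℝ) * x.μ with hA2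
        have hA20 : 0 ≤ A2 := by positivity
        have hm2 : max (z - x.c) 0 ≤ 3 / 2 := max_le (by linarith) (by norm_num)
        have hA22 : A2 ≤ 2 := by linarith
        have hA23 : A2 * (1 + x.η) ≤ A2 + 2 * x.η := by nlinarith
        unfold G1n
        have e : (0 * (((x.b1 - x.K - (β + x.K + 1) : ℕ) : ℝ) * x.μ) + 2 / 5 * A2) * (1 + x.η) =
          2 / 5 * (A2 * (1 + x.η)) := by ring
        rw [e]
        linarith
    · rw [if_neg hB1]
      refine (split_bound hC hA hB x hx β hβ (fun a => x.fr false a β) 0 0 0 le_rfl le_rfl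
        le_rfl ?_ ?_ ?_).trans ?_
      · intro a ha h1 h2
        omega
      · intro a ha h1 h2
        have := hR a ha
        omega
      · intro a ha h1 h2
        have := hR a ha
        omega
      · apply mul_le_mul_of_nonneg_right _ hθ.le
        simp only [zero_mul, zero_add]
        linarith

theorem t_CLA (hL : S_LM1) (hC : S_CLD) (hA : S_AVA) (hB : S_BLK) : S_CLA := by
  intro x hx β hβ
  obtain ⟨hη, hη5, hc0, hc1, hθ, hθη, hμ, hμη, hv0, hv1, hKg, hKgμ⟩ := nums x hx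
  obtain ⟨hK1, hK2, hJ0, hJ1, hg, hz0, hz1, hX, hcc, hcc0⟩ := nums2 x hx β hβ
  have hβ' := Finset.mem_Ico.mp hβ
  set z := ((x.b1 : ℝ) - β) * x.μ with hz
  have hW := hx.W1
  have hgK : x.g + 1 ≤ x.K := by have := hx.g1; omega
  have hfr : ∀ a, x.fr true a β = x.gA (x.lam a) a β := fun a => by
    unfold Prm.fr; simp
  have hR : ∀ a ∈ x.R, a + 1 ≤ x.b1 + x.J := by
    intro a ha
    have := (Finset.mem_Icc.mp ha).2
    have hJ := hx.J1
    omega
  by_cases hA1 : β + 2 * x.K < x.b1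
  · rw [if_pos hA1]
    refine (split_bound hC hA hB x hx β hβ (fun a => x.fr true a β) (1 / 2) (1 / 2 - x.c / 10)
      (3 / 10 * x.c + x.η) (by norm_num) (by linarith) (by linarith) ?_ ?_ ?_).trans ?_
    · intro a ha h1 h2
      rw [hfr, gA_above x _ a β hβ (by omega), if_neg (by omega), if_neg (by omega)]
    · intro a ha h1 h2
      rw [hfr, gA_above x _ a β hβ (by omega), if_neg (by omega), if_pos (by omega), if_pos hA1]
    · intro a ha h1 h2
      rw [hfr, gA_above x _ a β hβ (by omega), if_pos h2, if_neg (by omega)]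
      linarith
    · apply mul_le_mul_of_nonneg_right _ hθ.le
      have h1 : ((x.b1 - x.K - (β + x.K + 1) : ℕ) : ℝ) * x.μ ≤ z - 2 * (x.K * x.μ) := by
        have h2 : ((x.b1 - x.K - (β + x.K + 1) : ℕ) : ℝ) ≤ (x.b1 : ℝ) - β - 2 * x.K := by
          have h3 : x.b1 - x.K - (β + x.K + 1) + (β + 2 * x.K) ≤ x.b1 := by omega
          have h4 : ((x.b1 - x.K - (β + x.K + 1) + (β + 2 * x.K) : ℕ) : ℝ) ≤ x.b1 := by
            exact_mod_cast h3
          push_cast at h4
          linarith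
        calc _ ≤ ((x.b1 : ℝ) - β - 2 * x.K) * x.μ := mul_le_mul_of_nonneg_right h2 hμ.le
          _ = _ := by rw [hz]; ring
      have h2 : ((x.b1 + x.J - max (β + x.K + 1) (x.b1 - x.K) : ℕ) : ℝ) * x.μ =
          x.K * x.μ + x.J * x.μ := by
        have h3 : x.b1 + x.J - max (β + x.K + 1) (x.b1 - x.K) = x.K + x.J := by
          rw [max_eq_right (by omega)]
          omega
        rw [h3]; push_cast; ring
      rw [h2]
      set A1 := ((x.b1 - x.K - (β + x.K + 1) : ℕ) : ℝ) * x.μ with hA1'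
      have hA10 : 0 ≤ A1 := by positivity
      have h4 : x.c / 10 * (x.c - x.η) ≤ x.c / 10 * (x.K * x.μ + x.J * x.μ) :=
        mul_le_mul_of_nonneg_left (by linarith) (by linarith)
      have h5 : x.c * x.η ≤ x.η := by nlinarith
      have hY : 1 / 2 * A1 + (1 / 2 - x.c / 10) * (x.K * x.μ + x.J * x.μ) ≤
          (z - x.c) / 2 - x.c ^ 2 / 10 + 2 * x.η := by
        have h6 : (1 / 2 - x.c / 10) * (x.K * x.μ + x.J * x.μ) =
            1 / 2 * (x.K * x.μ + x.J * x.μ) - x.c / 10 * (x.K * x.μ + x.J * x.μ) := by ring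
        have h7 : x.c / 10 * (x.c - x.η) = x.c ^ 2 / 10 - x.c * x.η / 10 := by ring
        rw [h6]
        linarith
      set Y := 1 / 2 * A1 + (1 / 2 - x.c / 10) * (x.K * x.μ + x.J * x.μ) with hYd
      have hY2 : Y ≤ 2 := by linarith
      have hY3 : Y * (1 + x.η) ≤ Y + 2 * x.η := by nlinarith
      unfold G2f
      linarith
  · rw [if_neg hA1]
    -- the final computation
    have hfin : ∀ P : ℝ, ((0 * (((x.b1 - x.K - (β + x.K + 1) : ℕ) : ℝ) * x.μ) +
        3 / 5 * (((x.b1 + x.J - max (β + x.K + 1) (x.b1 - x.K) : ℕ) : ℝ) * x.μ)) * (1 + x.η) +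
        (P + 60 * x.η)) ≤ 3 / 5 * max (z - x.c) 0 + P + 100 * x.η := by
      intro P
      have hn := n2_bound x hx β hβ (by omega)
      rw [← hz] at hn
      set A2 := ((x.b1 + x.J - max (β + x.K + 1) (x.b1 - x.K) : ℕ) : ℝ) * x.μ with hA2
      have hA20 : 0 ≤ A2 := by positivity
      have hm2 : max (z - x.c) 0 ≤ 3 / 2 := max_le (by linarith) (by norm_num)
      have hA22 : A2 ≤ 2 := by linarith
      have hA23 : A2 * (1 + x.η) ≤ A2 + 2 * x.η := by nlinarith
      have e : (0 * (((x.b1 - x.K - (β + x.K + 1) : ℕ) : ℝ) * x.μ) + 3 / 5 * A2) * (1 + x.η) =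
        3 / 5 * (A2 * (1 + x.η)) := by ring
      rw [e]
      linarith
    -- flexible rows
    have hflex : ∀ a ∈ x.R, x.b1 ≤ a + x.K → a ≤ β + x.K → x.b1 ≤ a + x.g + 1 →
        x.lam a * (((x.K : ℝ) - x.g) * (x.v / x.D)) ≤
          (x.c / 10 - x.c ^ 2 / 5 + 2 / 5 * (2 * x.c - z) + 60 * x.η) * x.θ := by
      intro a ha hrr h2 h3
      have h4 := ((hL x hx a ha).2.2.1 hrr).2
      rw [if_pos h3] at h4
      refine h4.trans (mul_le_mul_of_nonneg_right ?_ hθ.le)
      have h5 : (a : ℝ) ≤ β + x.K := by exact_mod_cast h2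
      have h6 : ((a : ℝ) + x.K - x.b1) * x.μ ≤ (2 * (x.K : ℝ) - ((x.b1 : ℝ) - β)) * x.μ :=
        mul_le_mul_of_nonneg_right (by linarith) hμ.le
      have h7 : (2 * (x.K : ℝ) - ((x.b1 : ℝ) - β)) * x.μ = 2 * (x.K * x.μ) - z := by
        rw [hz]; ring
      linarith
    by_cases hB0 : β + 2 * x.g + 2 ≤ x.b1
    · rw [if_pos hB0]
      set P1 := x.c / 10 - x.c ^ 2 / 5 + 2 / 5 * (2 * x.c - z) with hP1
      set P2 := 2 / 5 * x.c - x.c ^ 2 / 5 with hP2
      have hP20 : 3 / 10 * x.c ≤ P2 := by rw [hP2]; linarith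
      have hm1 := le_max_left P1 P2
      have hm2 := le_max_right P1 P2
      refine (split_bound hC hA hB x hx β hβ (fun a => x.fr true a β) 0 (3 / 5)
        (max P1 P2 + 60 * x.η) le_rfl (by norm_num)
        (by linarith) ?_ ?_ ?_).trans ?_
      · intro a ha h1 h2
        omega
      · intro a ha h1 h2
        rw [hfr, gA_above x _ a β hβ (by omega), if_neg (by omega), if_pos (by omega), if_neg hA1]
      · intro a ha h1 h2
        by_cases hrr : x.b1 ≤ a + x.K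
        · rw [hfr, gA_above x _ a β hβ (by omega), if_pos h2, if_pos hrr]
          by_cases h3 : x.b1 ≤ a + x.g + 1
          · refine (hflex a ha hrr h2 h3).trans (mul_le_mul_of_nonneg_right ?_ hθ.le)
            linarith
          · have h4 := ((hL x hx a ha).2.2.1 hrr).2
            rw [if_neg h3] at h4
            refine h4.trans (mul_le_mul_of_nonneg_right ?_ hθ.le)
            have h5 : ((a + x.g + 1 : ℕ) : ℝ) ≤ (x.b1 : ℝ) := by
              have : a + x.g + 1 ≤ x.b1 := by omega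
              exact_mod_cast this
            push_cast at h5
            have h6 : ((a : ℝ) + x.K - x.b1) * x.μ ≤ ((x.K : ℝ) - x.g) * x.μ :=
              mul_le_mul_of_nonneg_right (by linarith) hμ.le
            linarith
        · rw [hfr, gA_above x _ a β hβ (by omega), if_pos h2, if_neg hrr]
          have h6 : (3 / 10 * x.c + x.η) * x.θ ≤ (max P1 P2 + 60 * x.η) * x.θ :=
            mul_le_mul_of_nonneg_right (by linarith) hθ.le
          linarith
      · apply mul_le_mul_of_nonneg_right _ hθ.le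
        refine (hfin _).trans ?_
        have e1 : max (G2n x.c z) (G2m x.c z) = 3 / 5 * max (z - x.c) 0 + max P1 P2 := by
          rw [← max_add_add_left]
          congr 1
          · unfold G2n; rw [hP1]; ring
          · unfold G2m; rw [hP2]; ring
        rw [e1]
    · rw [if_neg hB0]
      by_cases hB1 : β + x.g + 2 ≤ x.b1 + x.J
      · rw [if_pos hB1]
        have hzu : z ≤ 2 * x.c + 2 * x.η := by
          have h1 : ((x.b1 : ℕ) : ℝ) ≤ ((β + 2 * x.K : ℕ) : ℝ) := by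
            have : x.b1 ≤ β + 2 * x.K := by omega
            exact_mod_cast this
          push_cast at h1
          have h2 : ((x.b1 : ℝ) - β) * x.μ ≤ (2 * (x.K : ℝ)) * x.μ :=
            mul_le_mul_of_nonneg_right (by linarith) hμ.le
          have h3 : (2 * (x.K : ℝ)) * x.μ = 2 * (x.K * x.μ) := by ring
          linarith
        refine (split_bound hC hA hB x hx β hβ (fun a => x.fr true a β) 0 (3 / 5)
          (x.c / 10 - x.c ^ 2 / 5 + 2 / 5 * (2 * x.c - z) + 60 * x.η) le_rfl (by norm_num)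
          (by linarith) ?_ ?_ ?_).trans ?_
        · intro a ha h1 h2
          omega
        · intro a ha h1 h2
          rw [hfr, gA_above x _ a β hβ (by omega), if_neg (by omega), if_pos (by omega),
            if_neg hA1]
        · intro a ha h1 h2
          have h3 : x.b1 ≤ a + x.g + 1 := by omega
          have hrr : x.b1 ≤ a + x.K := by omega
          rw [hfr, gA_above x _ a β hβ (by omega), if_pos h2, if_pos hrr]
          exact hflex a ha hrr h2 h3
        · apply mul_le_mul_of_nonneg_right _ hθ.le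
          refine (hfin _).trans ?_
          unfold G2n
          linarith
      · rw [if_neg hB1]
        refine (split_bound hC hA hB x hx β hβ (fun a => x.fr true a β) 0 0 0 le_rfl le_rfl
          le_rfl ?_ ?_ ?_).trans ?_
        · intro a ha h1 h2
          omega
        · intro a ha h1 h2
          have := hR a ha
          omega
        · intro a ha h1 h2
          have := hR a ha
          omega
        · apply mul_le_mul_of_nonneg_right _ hθ.le
          simp only [zero_mul, zero_add]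
          linarith

end Pool.Agent.H44.HW
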