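import Pool.Agent.H65.HW.GStm

/-!
# Project HW, part SEL: choice of edges in rounds
-/

set_option autoImplicit false
open Classical Finset

namespace Pool.Agent.H44.HW

open Pool.Agent.H21.HV (nb Prp TotLab)
open Pool.Agent.H65.HW

theorem t_SEL (hH : S_HALC) : S_SEL := by
  intro V _ Γ P Q r r0 d C hPQ hd hr hnb hcap
  by_cases hV : Nonempty V
  swap
  · refine ⟨⊥, bot_le, ?_, ?_, ?_⟩
    · intro u; exact absurd ⟨u⟩ hV
    · intro u; exact absurd ⟨u⟩ hV
    · intro u; exact absurd ⟨u⟩ hV
  have hst : ∀ k ≤ r0, ∃ f : ℕ → V → V,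
      (∀ i < k, ∀ z ∈ P, i < r z → f i z ∈ Q ∧ Γ.Adj z (f i z)) ∧
      (∀ z ∈ P, ∀ i < k, ∀ j < k, i < r z → j < r z → f i z = f j z → i = j) ∧
      (∀ i < k, ∀ u ∈ Q, ((P.filter (fun z => i < r z)).filter (fun z => f i z = u)).card ≤ C) := by
    intro k
    induction k with
    | zero =>
      intro _
      refine ⟨fun _ z => z, ?_, ?_, ?_⟩
      · intro n hn; omega
      · intro z _ n hn; omega
      · intro n hn; omega
    | succ k ih =>
      intro hk
      obtain ⟨f, hf1, hf2, hf3⟩ := ih (by omega)
      obtain ⟨Rr, hRr⟩ : ∃ Rr : V → V → Prop, ∀ z u, Rr z u ↔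
        (Γ.Adj z u ∧ ∀ i < k, f i z ≠ u) := ⟨_, fun _ _ => Iff.rfl⟩
      obtain ⟨g, hg1, hg2⟩ := hH V V (P.filter (fun z => k < r z)) Q Rr d C hd (by
          intro z hz
          rw [Finset.mem_filter] at hz
          have h1 := hnb z hz.1
          unfold nb at h1
          have h2 : (Q.filter (fun u => Γ.Adj z u)) ⊆
              (Q.filter (fun u => Rr z u)) ∪ (range k).image (fun i => f i z) := by
            intro u hu
            rw [Finset.mem_filter] at hu
            rw [Finset.mem_union, Finset.mem_filter, Finset.mem_image, hRr]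
            by_cases hc : ∀ i < k, f i z ≠ u
            · exact Or.inl ⟨hu.1, hu.2, hc⟩
            · right
              push Not at hc
              obtain ⟨i, hi, hiu⟩ := hc
              exact ⟨i, Finset.mem_range.mpr hi, hiu⟩
          have h3 := (Finset.card_le_card h2).trans (Finset.card_union_le _ _)
          have h4 : ((range k).image (fun i => f i z)).card ≤ k :=
            Finset.card_image_le.trans (by rw [Finset.card_range])
          omega) (by
          intro u hu
          refine le_trans (Finset.card_le_card ?_) (hcap u hu)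
          intro z hz
          rw [Finset.mem_filter, Finset.mem_filter, hRr] at hz
          rw [Finset.mem_filter]
          exact ⟨hz.1.1, hz.2.1.symm⟩) hV
      have hg1 : ∀ z ∈ P.filter (fun z => k < r z), g z ∈ Q ∧
          (Γ.Adj z (g z) ∧ ∀ i < k, f i z ≠ g z) := fun z hz =>
        ⟨(hg1 z hz).1, (hRr _ _).mp (hg1 z hz).2⟩
      refine ⟨fun i z => if i = k then g z else f i z, ?_, ?_, ?_⟩
      · intro i hi z hz hiz
        by_cases hik : i = k
        · subst hik
          simp only [if_true]
          have := hg1 z (Finset.mem_filter.mpr ⟨hz, hiz⟩)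
          exact ⟨this.1, this.2.1⟩
        · simp only [if_neg hik]
          exact hf1 i (by omega) z hz hiz
      · intro z hz i hi j hj hiz hjz he
        by_cases hik : i = k
        · by_cases hjk : j = k
          · omega
          · exfalso
            subst hik
            simp only [if_true, if_neg hjk] at he
            exact (hg1 z (Finset.mem_filter.mpr ⟨hz, hiz⟩)).2.2 j (by omega) he.symm
        · by_cases hjk : j = k
          · exfalso
            subst hjk
            simp only [if_true, if_neg hik] at he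
            exact (hg1 z (Finset.mem_filter.mpr ⟨hz, hjz⟩)).2.2 i (by omega) he
          · simp only [if_neg hik, if_neg hjk] at he
            exact hf2 z hz i (by omega) j (by omega) hiz hjz he
      · intro i hi u hu
        by_cases hik : i = k
        · subst hik
          simp only [if_true]
          exact hg2 u hu
        · simp only [if_neg hik]
          exact hf3 i (by omega) u hu
  obtain ⟨f, hf1, hf2, hf3⟩ := hst r0 le_rfl
  set R : ℕ → V → V → Prop := fun n u v =>
    (u ∈ P ∧ n < r u ∧ v = f n u) ∨ (v ∈ P ∧ n < r v ∧ u = f n v) with hR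
  have hPf : ∀ z ∈ P, ∀ i < r z, f i z ∈ Q ∧ Γ.Adj z (f i z) := by
    intro z hz i hi
    have := hr z hz
    exact hf1 i (by omega) z hz hi
  have himg : ∀ z ∈ P, ∀ i < r z, f i z ∉ P := by
    intro z hz i hi hc
    exact Finset.disjoint_left.mp hPQ hc (hPf z hz i hi).1
  let Λ : SimpleGraph V :=
    { Adj := fun u v => ∃ n, R n u v
      symm := ⟨fun u v h => by
        obtain ⟨n, hn⟩ := h
        exact ⟨n, Or.symm hn⟩⟩
      loopless := ⟨fun u h => by
        obtain ⟨n, hn⟩ := h
        rcases hn with hn | hn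
        · exact himg u hn.1 n hn.2.1 (hn.2.2 ▸ hn.1)
        · exact himg u hn.1 n hn.2.1 (hn.2.2 ▸ hn.1)⟩ }
  have hΛ : ∀ u v, Λ.Adj u v ↔ ∃ n, R n u v := fun u v => Iff.rfl
  have hΛP : ∀ z ∈ P, ∀ v, Λ.Adj z v ↔ ∃ n < r z, v = f n z := by
    intro z hz v
    rw [hΛ]
    constructor
    · rintro ⟨n, hn⟩
      rcases hn with hn | hn
      · exact ⟨n, hn.2⟩
      · exact absurd hz (hn.2.2 ▸ himg v hn.1 n hn.2.1)
    · rintro ⟨n, hn⟩
      exact ⟨n, Or.inl ⟨hz, hn⟩⟩
  refine ⟨Λ, ?_, ?_, ?_, ?_⟩
  · intro u v h
    obtain ⟨n, hn⟩ := h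
    rcases hn with hn | hn
    · rw [hn.2.2]
      exact (hPf u hn.1 n hn.2.1).2
    · rw [hn.2.2]
      exact (hPf v hn.1 n hn.2.1).2.symm
  · intro u v h
    obtain ⟨n, hn⟩ := h
    rcases hn with hn | hn
    · left
      refine ⟨hn.1, ?_⟩
      rw [hn.2.2]
      exact (hPf u hn.1 n hn.2.1).1
    · right
      refine ⟨?_, hn.1⟩
      rw [hn.2.2]
      exact (hPf v hn.1 n hn.2.1).1
  · intro z hz
    unfold nb
    have himg' : (Q.filter (fun u => Λ.Adj z u)) = (range (r z)).image (fun n => f n z) := by
      ext u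
      rw [Finset.mem_filter, Finset.mem_image, hΛP z hz u]
      constructor
      · rintro ⟨_, n, hn, h⟩
        exact ⟨n, Finset.mem_range.mpr hn, h.symm⟩
      · rintro ⟨n, hn, h⟩
        have hn' := Finset.mem_range.mp hn
        exact ⟨h ▸ (hPf z hz n hn').1, n, hn', h.symm⟩
    rw [himg', Finset.card_image_of_injOn, Finset.card_range]
    intro n hn n' hn' h
    have hn1 := Finset.mem_range.mp (Finset.mem_coe.mp hn)
    have hn2 := Finset.mem_range.mp (Finset.mem_coe.mp hn')
    have := hr z hz
    exact hf2 z hz n (by omega) n' (by omega) hn1 hn2 h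
  · intro u hu
    unfold nb
    have hsub : (P.filter (fun z => Λ.Adj u z)) ⊆ (range r0).biUnion
        (fun i => (P.filter (fun z => i < r z)).filter (fun z => f i z = u)) := by
      intro z hz
      rw [Finset.mem_filter] at hz
      obtain ⟨n, hn, hnu⟩ := (hΛP z hz.1 u).mp hz.2.symm
      rw [Finset.mem_biUnion]
      have := hr z hz.1
      refine ⟨n, Finset.mem_range.mpr (by omega), ?_⟩
      rw [Finset.mem_filter, Finset.mem_filter]
      exact ⟨⟨hz.1, hn⟩, hnu.symm⟩
    refine (Finset.card_le_card hsub).trans ?_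
    refine (Finset.card_biUnion_le_card_mul _ _ C ?_).trans ?_
    · intro i hi
      exact hf3 i (Finset.mem_range.mp hi) u hu
    · rw [Finset.card_range]

end Pool.Agent.H44.HW
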