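import Pool.Agent.H65.HW.GStm

/-!
# Project HW, part TSA: label by label matchings
-/

set_option autoImplicit false
open Classical Finset

namespace Pool.Agent.H44.HW

open Pool.Agent.H21.HV (nb Prp TotLab)
open Pool.Agent.H65.HW

section
variable {V : Type} [Fintype V]

/-- the state after the labels `< k` -/
structure Stt (G : SimpleGraph V) (cl : V → ℕ) (Z : Finset V) (Tp : V → Finset ℕ)
    (B m κ : ℕ) (ok : ℕ → ℕ → Prop) (k : ℕ) (f : ℕ → V → V) : Prop where
  adj : ∀ n < k, ∀ z ∈ Z, n ∈ Tp z →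
    G.Adj z (f n z) ∧ ok n (cl (f n z) - B) ∧ B ≤ cl (f n z) ∧ cl (f n z) < B + m
  inj : ∀ n < k, ∀ z ∈ Z, ∀ z' ∈ Z, n ∈ Tp z → n ∈ Tp z' → f n z = f n z' → z = z'
  new : ∀ z ∈ Z, ∀ n < k, ∀ n' < k, n ∈ Tp z → n' ∈ Tp z → f n z = f n' z → n = n'
  cap : ∀ z ∈ Z, ∀ y < m,
    ((range k).filter (fun n => n ∈ Tp z ∧ cl (f n z) = B + y)).card ≤ κ

theorem step (h2 : S_HAL2) (G : SimpleGraph V) (cl : V → ℕ) (Z : Finset V) (Tp : V → Finset ℕ)
    (N B m κ w t d q e : ℕ) (ok : ℕ → ℕ → Prop)
    (hTt : ∀ z ∈ Z, (Tp z).card ≤ t) (hκ : 1 ≤ κ) (htq : t ≤ q * κ)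
    (hnb : ∀ z ∈ Z, ∀ y < m, w + κ ≤ nb G (cell cl (B + y)) z)
    (hok : ∀ n < N, q + e ≤ ((range m).filter (fun y => ok n y)).card) (hdw : d ≤ e * w)
    (hd : 1 ≤ d)
    (hdeg : ∀ n < N, ∀ u, (Z.filter (fun z => G.Adj u z ∧ n ∈ Tp z)).card ≤ d)
    (k : ℕ) (hk : k < N) (f : ℕ → V → V) (hf : Stt G cl Z Tp B m κ ok k f) :
    ∃ f' : ℕ → V → V, Stt G cl Z Tp B m κ ok (k + 1) f' := by
  by_cases hV : Nonempty V
  swap
  · refine ⟨f, ⟨?_, ?_, ?_, ?_⟩⟩
    · intro n _ z; exact absurd ⟨z⟩ hV
    · intro n _ z; exact absurd ⟨z⟩ hV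
    · intro z; exact absurd ⟨z⟩ hV
    · intro z; exact absurd ⟨z⟩ hV
  -- number of used edges from `z` to the cell `i`
  set us : V → ℕ → ℕ := fun z i =>
    ((range k).filter (fun n => n ∈ Tp z ∧ cl (f n z) = i)).card with hus
  obtain ⟨Rr, hRr⟩ : ∃ Rr : V → V → Prop, ∀ z u, Rr z u ↔
      (G.Adj z u ∧ (ok k (cl u - B) ∧ B ≤ cl u ∧ cl u < B + m) ∧
        (∀ n < k, n ∈ Tp z → f n z ≠ u) ∧ us z (cl u) < κ) := ⟨_, fun _ _ => Iff.rfl⟩
  have key : ∀ z ∈ Z.filter (fun z => k ∈ Tp z), d ≤ ((univ : Finset V).filter (fun u =>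
      Rr z u)).card := by
    intro z hz
    rw [Finset.mem_filter] at hz
    obtain ⟨hzZ, hkz⟩ := hz
    -- full cells
    have hfull : ((range m).filter (fun y => κ ≤ us z (B + y))).card ≤ q := by
      have h1 : ((range m).filter (fun y => κ ≤ us z (B + y))).card * κ ≤
          ∑ y ∈ (range m).filter (fun y => κ ≤ us z (B + y)), us z (B + y) := by
        rw [← smul_eq_mul]
        exact Finset.card_nsmul_le_sum _ _ _ (fun y hy => (Finset.mem_filter.mp hy).2)
      have h2' : ∑ y ∈ (range m).filter (fun y => κ ≤ us z (B + y)), us z (B + y) ≤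
          (Tp z).card := by
        rw [hus]
        simp only
        rw [← Finset.card_biUnion]
        · apply Finset.card_le_card
          intro n hn
          rw [Finset.mem_biUnion] at hn
          obtain ⟨y, _, hy⟩ := hn
          exact (Finset.mem_filter.mp hy).2.1
        · intro y _ y' _ hyy
          rw [Function.onFun, Finset.disjoint_left]
          intro n hn hn'
          have e1 := (Finset.mem_filter.mp hn).2.2
          have e2 := (Finset.mem_filter.mp hn').2.2
          apply hyy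
          omega
      have h3 : ((range m).filter (fun y => κ ≤ us z (B + y))).card * κ ≤ q * κ :=
        h1.trans (h2'.trans ((hTt z hzZ).trans htq))
      exact Nat.le_of_mul_le_mul_right h3 hκ
    -- admissible cells
    set Ad := (range m).filter (fun y => ok k y ∧ us z (B + y) < κ) with hAd
    have hAdc : e ≤ Ad.card := by
      have h1 := hok k hk
      have h2' : ((range m).filter (fun y => ok k y)).card ≤
          Ad.card + ((range m).filter (fun y => κ ≤ us z (B + y))).card := by
        rw [hAd]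
        refine le_trans (Finset.card_le_card ?_) (Finset.card_union_le _ _)
        intro y hy
        rw [Finset.mem_filter] at hy
        rw [Finset.mem_union, Finset.mem_filter, Finset.mem_filter]
        by_cases hc : us z (B + y) < κ
        · exact Or.inl ⟨hy.1, hy.2, hc⟩
        · exact Or.inr ⟨hy.1, by omega⟩
      omega
    -- new edges in a cell
    have hcell : ∀ y ∈ Ad, w ≤ ((cell cl (B + y)).filter (fun u =>
        G.Adj z u ∧ ∀ n < k, n ∈ Tp z → f n z ≠ u)).card := by
      intro y hy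
      rw [hAd, Finset.mem_filter, Finset.mem_range] at hy
      have h1 := hnb z hzZ y hy.1
      unfold nb at h1
      have h2' : ((cell cl (B + y)).filter (fun u => G.Adj z u)).card ≤
          ((cell cl (B + y)).filter (fun u =>
            G.Adj z u ∧ ∀ n < k, n ∈ Tp z → f n z ≠ u)).card + us z (B + y) := by
        have h3 : ((cell cl (B + y)).filter (fun u => G.Adj z u)) ⊆
            ((cell cl (B + y)).filter (fun u =>
              G.Adj z u ∧ ∀ n < k, n ∈ Tp z → f n z ≠ u)) ∪
            ((range k).filter (fun n => n ∈ Tp z ∧ cl (f n z) = B + y)).image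
              (fun n => f n z) := by
          intro u hu
          rw [Finset.mem_filter] at hu
          rw [Finset.mem_union, Finset.mem_filter, Finset.mem_image]
          by_cases hc : ∀ n < k, n ∈ Tp z → f n z ≠ u
          · exact Or.inl ⟨hu.1, hu.2, hc⟩
          · right
            push Not at hc
            obtain ⟨n, hn, hnT, hnu⟩ := hc
            refine ⟨n, ?_, hnu⟩
            rw [Finset.mem_filter, Finset.mem_range]
            refine ⟨hn, hnT, ?_⟩
            rw [hnu]
            have := hu.1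
            unfold cell at this
            exact (Finset.mem_filter.mp this).2
        refine (Finset.card_le_card h3).trans ((Finset.card_union_le _ _).trans ?_)
        exact Nat.add_le_add_left Finset.card_image_le _
      have h4 := hy.2.2
      omega
    -- together
    calc d ≤ e * w := hdw
      _ ≤ Ad.card * w := Nat.mul_le_mul_right _ hAdc
      _ ≤ ∑ y ∈ Ad, ((cell cl (B + y)).filter (fun u =>
        G.Adj z u ∧ ∀ n < k, n ∈ Tp z → f n z ≠ u)).card := by
          rw [← smul_eq_mul]
          exact Finset.card_nsmul_le_sum _ _ _ hcell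
      _ = (Ad.biUnion fun y => (cell cl (B + y)).filter (fun u =>
        G.Adj z u ∧ ∀ n < k, n ∈ Tp z → f n z ≠ u)).card := by
          rw [Finset.card_biUnion]
          intro y _ y' _ hyy
          rw [Function.onFun, Finset.disjoint_left]
          intro u hu hu'
          have e1 := (Finset.mem_filter.mp (Finset.mem_filter.mp hu).1).2
          have e2 := (Finset.mem_filter.mp (Finset.mem_filter.mp hu').1).2
          apply hyy
          omega
      _ ≤ _ := by
          apply Finset.card_le_card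
          intro u hu
          rw [Finset.mem_biUnion] at hu
          obtain ⟨y, hy, hu⟩ := hu
          rw [hAd, Finset.mem_filter, Finset.mem_range] at hy
          have e0 := Finset.mem_filter.mp hu
          have e1 : cl u = B + y := (Finset.mem_filter.mp e0.1).2
          rw [Finset.mem_filter, hRr]
          refine ⟨Finset.mem_univ _, e0.2.1, ⟨?_, by omega, by omega⟩, e0.2.2, ?_⟩
          · rw [e1, Nat.add_sub_cancel_left]; exact hy.2.1
          · rw [e1]; exact hy.2.2
  obtain ⟨g, hg1, hg2⟩ := h2 V V (Z.filter (fun z => k ∈ Tp z)) univ Rr d hd key (by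
    intro u _
    refine le_trans (Finset.card_le_card ?_) (hdeg k hk u)
    intro z hz
    rw [Finset.mem_filter, Finset.mem_filter, hRr] at hz
    rw [Finset.mem_filter]
    exact ⟨hz.1.1, hz.2.1.symm, hz.1.2⟩) hV
  have hgz : ∀ z ∈ Z, k ∈ Tp z → G.Adj z (g z) ∧ (ok k (cl (g z) - B) ∧ B ≤ cl (g z) ∧
      cl (g z) < B + m) ∧ (∀ n < k, n ∈ Tp z → f n z ≠ g z) ∧ us z (cl (g z)) < κ := by
    intro z hz hkz
    exact (hRr _ _).mp (hg1 z (Finset.mem_filter.mpr ⟨hz, hkz⟩)).2
  refine ⟨fun n z => if n = k then g z else f n z, ⟨?_, ?_, ?_, ?_⟩⟩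
  · intro n hn z hz hnz
    by_cases hnk : n = k
    · subst hnk
      simp only [if_true]
      have := hgz z hz hnz
      exact ⟨this.1, this.2.1⟩
    · simp only [if_neg hnk]
      exact hf.adj n (by omega) z hz hnz
  · intro n hn z hz z' hz' hnz hnz' he
    by_cases hnk : n = k
    · subst hnk
      simp only [if_true] at he
      exact hg2 z (Finset.mem_filter.mpr ⟨hz, hnz⟩) z' (Finset.mem_filter.mpr ⟨hz', hnz'⟩) he
    · simp only [if_neg hnk] at he
      exact hf.inj n (by omega) z hz z' hz' hnz hnz' he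
  · intro z hz n hn n' hn' hnz hnz' he
    by_cases hnk : n = k
    · by_cases hnk' : n' = k
      · omega
      · exfalso
        subst hnk
        simp only [if_true, if_neg hnk'] at he
        exact (hgz z hz hnz).2.2.1 n' (by omega) hnz' he.symm
    · by_cases hnk' : n' = k
      · exfalso
        subst hnk'
        simp only [if_true, if_neg hnk] at he
        exact (hgz z hz hnz').2.2.1 n (by omega) hnz he
      · simp only [if_neg hnk, if_neg hnk'] at he
        exact hf.new z hz n (by omega) n' (by omega) hnz hnz' he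
  · intro z hz y hy
    have hsub : ((range (k + 1)).filter (fun n => n ∈ Tp z ∧
        cl (if n = k then g z else f n z) = B + y)) ⊆
        ((range k).filter (fun n => n ∈ Tp z ∧ cl (f n z) = B + y)) ∪
          (if k ∈ Tp z ∧ cl (g z) = B + y then {k} else ∅) := by
      intro n hn
      rw [Finset.mem_filter, Finset.mem_range] at hn
      rw [Finset.mem_union, Finset.mem_filter, Finset.mem_range]
      by_cases hnk : n = k
      · right
        subst hnk
        simp only [if_true] at hn
        rw [if_pos hn.2]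
        exact Finset.mem_singleton_self _
      · left
        simp only [if_neg hnk] at hn
        exact ⟨by omega, hn.2⟩
    refine (Finset.card_le_card hsub).trans ((Finset.card_union_le _ _).trans ?_)
    by_cases hc : k ∈ Tp z ∧ cl (g z) = B + y
    · rw [if_pos hc, Finset.card_singleton]
      have h1 := (hgz z hz hc.1).2.2.2
      rw [hc.2] at h1
      exact h1
    · rw [if_neg hc, Finset.card_empty, Nat.add_zero]
      exact hf.cap z hz y hy

theorem t_TSA (h2 : S_HAL2) : S_TSA := by
  intro V _ G cl Z Tp N B m κ w t d q e ok hZB hTN hTt hκ htq hnb hok hdw hd hdeg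
  have hst : ∀ k ≤ N, ∃ f : ℕ → V → V, Stt G cl Z Tp B m κ ok k f := by
    intro k
    induction k with
    | zero =>
      intro _
      refine ⟨fun _ z => z, ⟨?_, ?_, ?_, ?_⟩⟩
      · intro n hn; omega
      · intro n hn; omega
      · intro z _ n hn; omega
      · intro z _ y _; simp
    | succ k ih =>
      intro hk
      obtain ⟨f, hf⟩ := ih (by omega)
      exact step h2 G cl Z Tp N B m κ w t d q e ok hTt hκ htq hnb hok hdw hd hdeg k (by omega) f hf
  obtain ⟨f, hf⟩ := hst N le_rfl
  -- membership of labels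
  have hN : ∀ z ∈ Z, ∀ n ∈ Tp z, n < N := fun z hz n hn => Finset.mem_range.mp (hTN z hz hn)
  set R : ℕ → V → V → Prop := fun n u v =>
    (u ∈ Z ∧ n ∈ Tp u ∧ v = f n u) ∨ (v ∈ Z ∧ n ∈ Tp v ∧ u = f n v) with hR
  have hRs : ∀ n u v, R n u v ↔ R n v u := by
    intro n u v
    rw [hR]
    exact Or.comm
  -- image vertices are not in `Z`
  have himg : ∀ z ∈ Z, ∀ n ∈ Tp z, f n z ∉ Z := by
    intro z hz n hn hc
    have h1 := (hf.adj n (hN z hz n hn) z hz hn).2.2.1
    have h3 := hZB _ hc
    omega
  have hRZ : ∀ n u v, u ∈ Z → R n u v → n ∈ Tp u ∧ v = f n u := by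
    intro n u v hu h
    rcases h with h | h
    · exact h.2
    · exact absurd hu (h.2.2 ▸ himg v h.1 n h.2.1)
  set c : V → V → ℕ := fun u v => sInf {n | R n u v} with hc
  have hcs : ∀ u v, c u v = c v u := by
    intro u v
    rw [hc]
    simp only
    congr 1
    ext n
    exact hRs n u v
  have hcZ : ∀ z ∈ Z, ∀ n v, R n z v → c z v = n := by
    intro z hz n v h
    have h1 : R (c z v) z v := by
      rw [hc]
      exact Nat.sInf_mem (s := {n | R n z v}) ⟨n, h⟩
    have e1 := hRZ _ _ _ hz h1
    have e2 := hRZ _ _ _ hz h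
    exact hf.new z hz _ (hN z hz _ e1.1) _ (hN z hz _ e2.1) e1.1 e2.1 (e1.2.symm.trans e2.2)
  let T : SimpleGraph V :=
    { Adj := fun u v => ∃ n, R n u v
      symm := ⟨fun u v h => by
        obtain ⟨n, hn⟩ := h
        exact ⟨n, (hRs n u v).mp hn⟩⟩
      loopless := ⟨fun u h => by
        obtain ⟨n, hn⟩ := h
        rcases hn with hn | hn
        · exact himg u hn.1 n hn.2.1 (hn.2.2 ▸ hn.1)
        · exact himg u hn.1 n hn.2.1 (hn.2.2 ▸ hn.1)⟩ }
  have hTadj : ∀ u v, T.Adj u v ↔ ∃ n, R n u v := fun u v => Iff.rfl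
  have hTZ : ∀ z ∈ Z, ∀ v, T.Adj z v ↔ ∃ n ∈ Tp z, v = f n z := by
    intro z hz v
    rw [hTadj]
    constructor
    · rintro ⟨n, hn⟩
      exact ⟨n, hRZ n z v hz hn⟩
    · rintro ⟨n, hn⟩
      exact ⟨n, Or.inl ⟨hz, hn⟩⟩
  refine ⟨T, c, ?_, ?_, hcs, ?_, ?_, ?_, ?_⟩
  · intro u v h
    obtain ⟨n, hn⟩ := h
    rcases hn with hn | hn
    · rw [hn.2.2]
      exact (hf.adj n (hN u hn.1 n hn.2.1) u hn.1 hn.2.1).1
    · rw [hn.2.2]
      exact (hf.adj n (hN v hn.1 n hn.2.1) v hn.1 hn.2.1).1.symm
  · intro u v h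
    obtain ⟨n, hn⟩ := h
    rcases hn with hn | hn
    · left
      refine ⟨hn.1, ?_⟩
      rw [hn.2.2]
      exact (hf.adj n (hN u hn.1 n hn.2.1) u hn.1 hn.2.1).2.2.1
    · right
      refine ⟨?_, hn.1⟩
      rw [hn.2.2]
      exact (hf.adj n (hN v hn.1 n hn.2.1) v hn.1 hn.2.1).2.2.1
  · intro u v v' h h' hne heq
    apply hne
    by_cases hu : u ∈ Z
    · obtain ⟨n, hn⟩ := h
      obtain ⟨n', hn'⟩ := h'
      rw [hcZ u hu n v hn, hcZ u hu n' v' hn'] at heq
      subst heq
      rw [(hRZ n u v hu hn).2, (hRZ n u v' hu hn').2]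
    · obtain ⟨n, hn⟩ := h
      obtain ⟨n', hn'⟩ := h'
      have e1 : v ∈ Z ∧ n ∈ Tp v ∧ u = f n v := by
        rcases hn with hn | hn
        · exact absurd hn.1 hu
        · exact hn
      have e2 : v' ∈ Z ∧ n' ∈ Tp v' ∧ u = f n' v' := by
        rcases hn' with hn' | hn'
        · exact absurd hn'.1 hu
        · exact hn'
      have c1 : c u v = n := by
        rw [hcs]
        exact hcZ v e1.1 n u ((hRs n u v).mp hn)
      have c2 : c u v' = n' := by
        rw [hcs]
        exact hcZ v' e2.1 n' u ((hRs n' u v').mp hn')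
      rw [c1, c2] at heq
      subst heq
      exact hf.inj n (hN v e1.1 n e1.2.1) v e1.1 v' e2.1 e1.2.1 e2.2.1 (e1.2.2.symm.trans e2.2.2)
  · intro z u h hz
    obtain ⟨n, hn⟩ := h
    rw [hcZ z hz n u hn]
    have e1 := hRZ n z u hz hn
    have e2 := hf.adj n (hN z hz n e1.1) z hz e1.1
    rw [← e1.2] at e2
    exact ⟨e1.1, e2.2.1, e2.2.2.2⟩
  · intro z hz
    unfold nb
    have himg' : (univ.filter (fun u => T.Adj z u)) = (Tp z).image (fun n => f n z) := by
      ext u
      rw [Finset.mem_filter, Finset.mem_image, hTZ z hz u]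
      constructor
      · rintro ⟨_, n, hn, h⟩
        exact ⟨n, hn, h.symm⟩
      · rintro ⟨n, hn, h⟩
        exact ⟨Finset.mem_univ _, n, hn, h.symm⟩
    rw [himg']
    apply Finset.card_image_of_injOn
    intro n hn n' hn' h
    exact hf.new z hz n (hN z hz n hn) n' (hN z hz n' hn') hn hn' h
  · intro z hz y hy
    refine le_trans ?_ (hf.cap z hz y hy)
    unfold nb
    refine le_trans (Finset.card_le_card ?_) (Finset.card_image_le (f := fun n => f n z))
    intro u hu
    rw [Finset.mem_filter, hTZ z hz u] at hu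
    obtain ⟨hu1, n, hn, hnu⟩ := hu
    rw [Finset.mem_image]
    refine ⟨n, ?_, hnu.symm⟩
    rw [Finset.mem_filter, Finset.mem_range]
    refine ⟨hN z hz n hn, hn, ?_⟩
    rw [← hnu]
    unfold cell at hu1
    exact (Finset.mem_filter.mp hu1).2

end

end Pool.Agent.H44.HW
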